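import Mathlib
set_option linter.style.longLine false
namespace Pool.Agent.H.MP_0f79e1_lc
open Set Cardinal

/-- The ordinals below the successor cardinal of `l`. -/
abbrev K (l : Cardinal.{0}) : Type := (Order.succ l).ord.ToType

/-- `T` is an `l⁺`-tree with height function `ht`: the predecessors of `t` are mapped by `ht`
order-isomorphically onto the ordinals below `ht t`; all levels are nonempty, of size at most `l`. -/
structure IsTree (l : Cardinal.{0}) {T : Type} [PartialOrder T] (ht : T → K l) : Prop where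
  mono : ∀ s t, s < t → ht s < ht t
  down : ∀ t γ, γ < ht t → ∃! s, s < t ∧ ht s = γ
  ne : ∀ γ, ∃ t, ht t = γ
  small : ∀ γ, #{t | ht t = γ} ≤ l

/-- Cofinal branches. -/
def Br {l : Cardinal.{0}} {T : Type} [PartialOrder T] (ht : T → K l) : Type :=
  {b : Set T // IsChain (· ≤ ·) b ∧ IsLowerSet b ∧ ∀ γ, ∃ t ∈ b, ht t = γ}

/-- Cone topology on the cofinal branches. -/
@[reducible] def topBr {l : Cardinal.{0}} {T : Type} [PartialOrder T] (ht : T → K l) : TopologicalSpace (Br ht) :=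
  .generateFrom {U | ∃ t : T, U = {b | t ∈ b.1}}

/-- Cone topology on binary sequences of length `l⁺`. -/
@[reducible] def topF (l : Cardinal.{0}) : TopologicalSpace (K l → Bool) :=
  .generateFrom {U | ∃ (s : K l → Bool) (α : K l), U = {g | ∀ ξ < α, g ξ = s ξ}}

def Kurepa (l : Cardinal.{0}) {T : Type} [PartialOrder T] (ht : T → K l) : Prop :=
  IsTree l ht ∧ Order.succ (Order.succ l) ≤ #(Br ht)

def Aronszajn (l : Cardinal.{0}) {T : Type} [PartialOrder T] (ht : T → K l) : Prop :=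
  IsTree l ht ∧ IsEmpty (Br ht)

def Strong {l : Cardinal.{0}} {T : Type} [PartialOrder T] (ht : T → K l) : Prop :=
  ∃ f : Br ht → (K l → Bool), @Continuous _ _ (topBr ht) (topF l) f ∧ Function.Surjective f

/-- Jensen's diamond-plus at `l⁺`. -/
def DiamondPlus (l : Cardinal.{0}) : Prop :=
  ∃ 𝒜 : K l → Set (Set (K l)), (∀ α, #(𝒜 α) ≤ l) ∧
    ∀ X : Set (K l), ∃ C, IsClub C ∧ ∀ α ∈ C, X ∩ Iio α ∈ 𝒜 α ∧ C ∩ Iio α ∈ 𝒜 α

variable {l : Cardinal.{0}}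

lemma kI (hl : ℵ₀ ≤ l) (a : K l) : #(Iic a) ≤ l := by
  rw [← Order.lt_succ_iff]
  simpa using mk_Iic_lt a (by simp) (by simpa using hl.trans (Order.le_succ l))

lemma un (hl : ℵ₀ ≤ l) {ι α : Type} (hι : #ι ≤ l) (f : ι → Set α) (h : ∀ i, #(f i) ≤ l) : #(⋃ i, f i) ≤ l :=
  calc #(⋃ i, f i) ≤ #ι * ⨆ i, #(f i) := mk_iUnion_le f
    _ ≤ l * l := mul_le_mul' hι (ciSup_le' h)
    _ = l := mul_eq_self hl

lemma bdd (hl : ℵ₀ ≤ l) {s : Set (K l)} (h : #s ≤ l) : ∃ g, ∀ a ∈ s, a < g := by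
  by_contra hc
  push Not at hc
  have : (Set.univ : Set (K l)) ⊆ ⋃ a : s, Iic a.1 := fun g _ => by
    obtain ⟨a, ha, h⟩ := hc g; exact mem_iUnion.2 ⟨⟨a, ha⟩, h⟩
  have := (mk_le_mk_of_subset this).trans (un hl h _ fun a => kI hl a)
  rw [mk_univ, mk_ord_toType] at this
  exact (Order.lt_succ l).not_ge this

lemma gt (hl : ℵ₀ ≤ l) (a b : K l) : ∃ g, a < g ∧ b < g := by
  obtain ⟨g, hg⟩ := bdd hl (s := {a, b}) ((toFinite _).lt_aleph0.le.trans hl)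
  exact ⟨g, hg a (by simp), hg b (by simp)⟩

lemma cp (hl : ℵ₀ ≤ l) (g : K l → K l) (a : K l) : ∃ δ, a ≤ δ ∧ ∀ α < δ, g α < δ := by
  have : ∀ x : K l, ∃ y, ∀ α ≤ x, g α < y := fun x => by
    obtain ⟨y, hy⟩ := bdd hl (mk_image_le.trans (kI hl x) : #(g '' Iic x) ≤ l)
    exact ⟨y, fun α h => hy _ ⟨α, h, rfl⟩⟩
  choose F hF using this
  obtain ⟨u, hu⟩ := bdd hl (s := range fun n : ℕ => F^[n] a) (mk_range_le.trans (by simpa using hl))
  obtain ⟨δ, h1, h2⟩ := (wellFounded_lt (α := K l)).has_min {u | ∀ n : ℕ, F^[n] a ≤ u}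
    ⟨u, fun n => (hu _ ⟨n, rfl⟩).le⟩
  refine ⟨δ, h1 0, fun α hα => ?_⟩
  by_contra hc
  refine h2 α (fun n => ?_) hα
  by_contra hn
  have := h1 (n + 1)
  rw [Function.iterate_succ_apply'] at this
  exact hc ((hF _ α (not_le.1 hn).le).trans_le this)

variable {T : Type} [PartialOrder T] {ht : T → K l}

lemma cone (b : Br ht) {U : Set (Br ht)} (hU : @IsOpen _ (topBr ht) U) (hb : b ∈ U) :
    ∃ t ∈ b.1, ∀ b' : Br ht, t ∈ b'.1 → b' ∈ U := by
  induction hU with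
  | basic s hs => obtain ⟨t, rfl⟩ := hs; exact ⟨t, hb, fun _ h => h⟩
  | univ =>
    obtain ⟨t, h, -⟩ := b.2.2.2 (Ordinal.ToType.mk ⟨0, by simp [pos_iff_ne_zero]⟩)
    exact ⟨t, h, fun _ _ => trivial⟩
  | inter s s' _ _ i1 i2 =>
    obtain ⟨t, h1, h2⟩ := i1 hb.1
    obtain ⟨t', k1, k2⟩ := i2 hb.2
    rcases b.2.1.total h1 k1 with h | h
    · exact ⟨t', k1, fun b' x => ⟨h2 b' (b'.2.2.1 h x), k2 b' x⟩⟩
    · exact ⟨t, h1, fun b' x => ⟨h2 b' x, k2 b' (b'.2.2.1 h x)⟩⟩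
  | sUnion S _ ih =>
    obtain ⟨s, hs, h⟩ := hb
    obtain ⟨t, h1, h2⟩ := ih s hs h
    exact ⟨t, h1, fun b' x => ⟨s, hs, h2 b' x⟩⟩

lemma below (h : IsTree l ht) (b : Br ht) {s t : T} (hs : s ∈ b.1) (hb : t ∈ b.1) (hl : ht s < ht t) : s ≤ t := by
  rcases b.2.1.total hs hb with x | x
  · exact x
  · rcases x.eq_or_lt with rfl | x
    exacts [le_rfl, absurd (h.mono _ _ x) hl.not_gt]

theorem strong_dp (hl : ℵ₀ ≤ l) (h : IsTree l ht) (hs : Strong ht) : DiamondPlus l := by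
  classical
  obtain ⟨f, hf, hsj⟩ := hs
  let Dec : T → K l → Prop := fun t α => ∀ b b' : Br ht, t ∈ b.1 → t ∈ b'.1 → f b α = f b' α
  let C : Br ht → Set (K l) := fun b => {δ | ∀ α < δ, ∃ t ∈ b.1, ht t < δ ∧ Dec t α}
  let X : Br ht → Set (K l) := fun b => {ξ | f b ξ = true}
  have dec : ∀ (b : Br ht) α, ∃ t ∈ b.1, Dec t α := by
    intro b α
    obtain ⟨β, hβ, -⟩ := gt hl α α
    have o : @IsOpen _ (topF l) {g | ∀ ξ < β, g ξ = f b ξ} := TopologicalSpace.GenerateOpen.basic _ ⟨f b, β, rfl⟩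
    obtain ⟨t, h1, h2⟩ := cone b (@Continuous.isOpen_preimage _ _ (topBr ht) (topF l) f hf _ o) fun _ _ => rfl
    exact ⟨t, h1, fun b1 b2 x y => (h2 b1 x α hβ).trans (h2 b2 y α hβ).symm⟩
  have club : ∀ b, IsClub (C b) := by
    intro b
    refine ⟨fun d hd _ _ a ha α hα => ?_, fun a => ?_⟩
    · obtain ⟨δ, h1, h2⟩ := (lt_isLUB_iff ha).1 hα
      obtain ⟨t, k1, k2, k3⟩ := hd h1 α h2
      exact ⟨t, k1, k2.trans_le (ha.1 h1), k3⟩
    · choose t h1 h2 using dec b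
      obtain ⟨δ, k1, k2⟩ := cp hl (fun α => ht (t α)) a
      exact ⟨δ, fun α hα => ⟨t α, h1 α, k2 α hα, h2 α⟩, k1⟩
  have sub : ∀ (b b' : Br ht) t, t ∈ b.1 → t ∈ b'.1 → C b ∩ Iio (ht t) ⊆ C b' ∩ Iio (ht t) := by
    intro b b' t x y δ hδ
    refine ⟨fun α hα => ?_, hδ.2⟩
    obtain ⟨s, k1, k2, k3⟩ := hδ.1 α hα
    exact ⟨s, b'.2.2.1 (below h b k1 x (k2.trans hδ.2)) y, k2, k3⟩
  let pick : T → Set (Set (K l)) := fun t => if h : ∃ b : Br ht, t ∈ b.1 then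
    {X h.choose ∩ Iio (ht t), C h.choose ∩ Iio (ht t)} else ∅
  refine ⟨fun δ => ⋃ t : {t | ht t = δ}, pick t, fun δ => un hl (h.small δ) _ fun t => ?_, fun Y => ?_⟩
  · refine (Set.Finite.lt_aleph0 ?_).le.trans hl
    simp only [pick]; split_ifs <;> exact toFinite _
  obtain ⟨b, hb⟩ := hsj fun ξ => decide (ξ ∈ Y)
  refine ⟨C b, club b, fun δ hδ => ?_⟩
  obtain ⟨t, x, rfl⟩ := b.2.2.2 δ
  have e : ∃ b : Br ht, t ∈ b.1 := ⟨b, x⟩
  have y := e.choose_spec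
  constructor <;> refine mem_iUnion.2 ⟨⟨t, rfl⟩, ?_⟩ <;> simp only [pick, dif_pos e]
  · refine Or.inl (Set.ext fun ξ => and_congr_left fun hξ => ?_)
    obtain ⟨s, k1, k2, k3⟩ := hδ ξ hξ
    simp only [X, mem_ofPred_eq]
    rw [← k3 b _ k1 (e.choose.2.2.1 (below h b k1 x k2) y), hb]; simp
  · exact Or.inr ((sub _ _ t x y).antisymm (sub _ _ t y x))

end Pool.Agent.H.MP_0f79e1_lc
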