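import Pool.Agent.H.MP_0f79e1_lc.A
set_option linter.style.longLine false
namespace Pool.Agent.H.MP_0f79e1_lc
open Set Cardinal

variable {l : Cardinal.{0}} {D : Type}

open Classical in
noncomputable def res (x0 : D) (w : K l → D) (α : K l) : K l → D := fun γ => if γ < α then w γ else x0

def TW (x0 : D) (W : Set (K l → D)) : Type := {p : K l × (K l → D) // ∃ w ∈ W, p.2 = res x0 w p.1}

instance (x0 : D) (W : Set (K l → D)) : PartialOrder (TW x0 W) where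
  le p q := p.1.1 ≤ q.1.1 ∧ ∀ γ < p.1.1, p.1.2 γ = q.1.2 γ
  le_refl _ := ⟨le_rfl, fun _ _ => rfl⟩
  le_trans _ _ _ h k := ⟨h.1.trans k.1, fun γ x => (h.2 γ x).trans (k.2 γ (x.trans_le h.1))⟩
  le_antisymm p q h k := by
    have e := h.1.antisymm k.1
    refine Subtype.ext (Prod.ext e (funext fun γ => ?_))
    by_cases x : γ < p.1.1
    · exact h.2 γ x
    · obtain ⟨w, -, hw⟩ := p.2
      obtain ⟨v, -, hv⟩ := q.2
      rw [hw, hv, ← e]; simp [res, x]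

def hW (x0 : D) (W : Set (K l → D)) (p : TW x0 W) : K l := p.1.1

lemma le_iff {x0 : D} {W : Set (K l → D)} {p q : TW x0 W} :
    p ≤ q ↔ p.1.1 ≤ q.1.1 ∧ ∀ γ < p.1.1, p.1.2 γ = q.1.2 γ := Iff.rfl

lemma lt_iff {x0 : D} {W : Set (K l → D)} {p q : TW x0 W} : p < q ↔ p ≤ q ∧ p.1.1 < q.1.1 := by
  refine ⟨fun h => ⟨h.le, lt_of_le_of_ne h.le.1 fun e => h.not_ge ⟨e.ge, fun γ x => ?_⟩⟩,
    fun h => lt_of_le_not_ge h.1 fun k => h.2.not_ge k.1⟩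
  exact (h.le.2 γ (e ▸ x)).symm

noncomputable def nd (x0 : D) {W : Set (K l → D)} {w : K l → D} (h : w ∈ W) (α : K l) : TW x0 W := ⟨(α, res x0 w α), w, h, rfl⟩

lemma tw (x0 : D) {W : Set (K l → D)} (hn : W.Nonempty) (hs : ∀ α, #((fun w => res x0 w α) '' W) ≤ l) :
    IsTree l (hW x0 W) := by
  refine ⟨fun s t h => (lt_iff.1 h).2, fun t γ h => ?_, fun γ => ⟨nd x0 hn.choose_spec γ, rfl⟩, fun α => ?_⟩
  · obtain ⟨w, h1, h2⟩ := t.2
    have k : nd x0 h1 γ ≤ t := ⟨h.le, fun ξ (x : ξ < γ) => by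
      rw [h2]; simp [nd, res, x, show ξ < t.1.1 from x.trans h]⟩
    refine ⟨nd x0 h1 γ, ⟨lt_iff.2 ⟨k, h⟩, rfl⟩, fun s hs => ?_⟩
    have e : s.1.1 = γ := hs.2
    exact le_antisymm (le_iff.2 ⟨e.le, fun ξ x => (hs.1.le.2 ξ x).trans (k.2 ξ (e ▸ x)).symm⟩)
      (le_iff.2 ⟨e.ge, fun ξ x => (k.2 ξ x).trans (hs.1.le.2 ξ (e ▸ x)).symm⟩)
  · refine (mk_le_of_injective (f := fun p : {t | hW x0 W t = α} =>
      (⟨p.1.1.2, by obtain ⟨w, h1, h2⟩ := p.1.2; exact ⟨w, h1, by rw [h2]; exact congrArg _ p.2.symm⟩⟩ :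
        (fun w => res x0 w α) '' W)) fun p q e => ?_).trans (hs α)
    exact Subtype.ext (Subtype.ext (Prod.ext (p.2.trans q.2.symm) (congrArg Subtype.val e)))

lemma zb (hl : ℵ₀ ≤ l) {x0 : D} {W : Set (K l → D)} (b : Br (hW x0 W)) :
    ∃ z : K l → D, ∀ p ∈ b.1, ∀ γ < p.1.1, p.1.2 γ = z γ := by
  have : ∀ γ : K l, ∃ p ∈ b.1, γ < p.1.1 := fun γ => by
    obtain ⟨g, hg, -⟩ := gt hl γ γ
    obtain ⟨p, h1, h2⟩ := b.2.2.2 g
    exact ⟨p, h1, hg.trans_eq h2.symm⟩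
  choose n h1 h2 using this
  refine ⟨fun γ => (n γ).1.2 γ, fun p hp γ h => ?_⟩
  rcases b.2.1.total hp (h1 γ) with x | x
  exacts [x.2 γ h, (x.2 γ (h2 γ)).symm]

variable {A : Type} [PartialOrder A] {hA : A → K l}

lemma pr (h : IsTree l hA) : ∃ p : A → K l → A, ∀ a γ, γ ≤ hA a → p a γ ≤ a ∧ hA (p a γ) = γ ∧
    ∀ s ≤ a, hA s = γ → s = p a γ := by
  have : ∀ a γ, ∃ s, γ ≤ hA a → s ≤ a ∧ hA s = γ ∧ ∀ s' ≤ a, hA s' = γ → s' = s := by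
    intro a γ
    rcases lt_trichotomy γ (hA a) with x | x | x
    · obtain ⟨s, h1, h2⟩ := h.down a γ x
      refine ⟨s, fun _ => ⟨h1.1.le, h1.2, fun s' k1 k2 => h2 s' ⟨lt_of_le_of_ne k1 ?_, k2⟩⟩⟩
      rintro rfl; exact x.ne' k2
    · refine ⟨a, fun _ => ⟨le_rfl, x.symm, fun s' k1 k2 => ?_⟩⟩
      by_contra e; exact (h.mono _ _ (lt_of_le_of_ne k1 e)).ne (k2.trans x)
    · exact ⟨a, fun y => absurd x y.not_gt⟩
  choose p hp using this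
  exact ⟨p, hp⟩

lemma hle (h : IsTree l hA) {s t : A} (x : s ≤ t) : hA s ≤ hA t := by
  rcases x.eq_or_lt with rfl | x
  exacts [le_rfl, (h.mono _ _ x).le]

theorem dp_strong (hl : ℵ₀ ≤ l) (hd : DiamondPlus l) (ha : Aronszajn l hA) :
    ∃ (T : Type) (_ : PartialOrder T) (ht : T → K l), Kurepa l ht ∧ Strong ht := by
  classical
  obtain ⟨𝒜, h𝒜, hd⟩ := hd
  obtain ⟨h, hA'⟩ := ha
  obtain ⟨p, hp⟩ := pr h
  choose a ha using h.ne
  choose C hC hC' using hd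
  have : ∀ y γ, ∃ ν, γ < ν ∧ ν ∈ C y ∧ ∀ δ ∈ C y, γ < δ → ν ≤ δ := by
    intro y γ
    obtain ⟨g, hg, -⟩ := gt hl γ γ
    obtain ⟨ν, h1, h2⟩ := (hC y).isCofinal g
    obtain ⟨m, k1, k2⟩ := (wellFounded_lt (α := K l)).has_min {δ | γ < δ ∧ δ ∈ C y} ⟨ν, hg.trans_le h2, h1⟩
    exact ⟨m, k1.1, k1.2, fun δ x y => not_lt.1 (k2 δ ⟨y, x⟩)⟩
  choose nx n1 n2 n3 using this
  let x : Set (K l) → K l → Set (K l) × Set (K l) × A := fun y γ =>
    (C y ∩ Iic γ, y ∩ {ξ | ∃ δ ∈ C y ∩ Iic γ, ξ < δ}, p (a (nx y γ)) γ)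
  have px : ∀ y γ, (x y γ).2.2 ≤ a (nx y γ) ∧ hA (x y γ).2.2 = γ ∧
      ∀ s ≤ a (nx y γ), hA s = γ → s = (x y γ).2.2 := fun y γ => hp _ _ (by rw [ha]; exact (n1 y γ).le)
  have nxe : ∀ y γ α, γ ≤ α → (∀ δ ∈ C y, δ ≤ α → δ ≤ γ) → (x y γ).2.2 ≤ (x y α).2.2 := by
    intro y γ α hγ hn
    have e : nx y γ = nx y α := le_antisymm (n3 _ _ _ (n2 _ _) (hγ.trans_lt (n1 _ _)))
      (n3 _ _ _ (n2 _ _) (by by_contra c; exact (n1 y γ).not_ge (hn _ (n2 _ _) (not_lt.1 c))))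
    obtain ⟨k1, k2, -⟩ := hp (x y α).2.2 γ (by rw [(px y α).2.1]; exact hγ)
    rw [← (px y γ).2.2 _ (e ▸ k1.trans (px y α).1) k2]; exact k1
  have det : ∀ y y' α γ, x y α = x y' α → γ ≤ α → x y γ = x y' γ := by
    intro y y' α γ e hγ
    have e1 : C y ∩ Iic α = C y' ∩ Iic α := congrArg (·.1) e
    have e2 : y ∩ _ = y' ∩ _ := congrArg (·.2.1) e
    have e3 : (x y α).2.2 = (x y' α).2.2 := congrArg (·.2.2) e
    have m : ∀ δ ≤ α, δ ∈ C y ↔ δ ∈ C y' := fun δ hδ => by simpa [hδ] using Set.ext_iff.1 e1 δ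
    have f1 : C y ∩ Iic γ = C y' ∩ Iic γ := Set.ext fun δ => and_congr_left fun hδ => m δ (hδ.trans hγ)
    refine Prod.ext f1 (Prod.ext ?_ ?_)
    · simp only [x, f1]
      refine Set.ext fun ξ => and_congr_left fun ⟨δ, h1, h2⟩ => ?_
      have := Set.ext_iff.1 e2 ξ
      rw [e1] at this
      exact (and_congr_left_iff.1 this) ⟨δ, ⟨h1.1, h1.2.trans hγ⟩, h2⟩
    · by_cases c : ∀ δ ∈ C y, δ ≤ α → δ ≤ γ
      · have c1 := nxe y γ α hγ c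
        have c2 := nxe y' γ α hγ fun δ u v => c δ ((m δ v).2 u) v
        have := (hp (x y α).2.2 γ (by rw [(px y α).2.1]; exact hγ)).2.2
        rw [this _ c1 (px y γ).2.1, this _ (e3 ▸ c2) (px y' γ).2.1]
      · push Not at c
        obtain ⟨δ, c1, c2, c3⟩ := c
        have u := (n3 y γ δ c1 c3).trans c2
        have v := (n3 y' γ δ ((m δ c2).1 c1) c3).trans c2
        have : nx y γ = nx y' γ := le_antisymm (n3 _ _ _ ((m _ v).2 (n2 _ _)) (n1 _ _))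
          (n3 _ _ _ ((m _ u).1 (n2 _ _)) (n1 _ _))
        simp only [x, this]
  obtain ⟨z0⟩ : Nonempty (K l) := ⟨Ordinal.ToType.mk ⟨0, by simp [pos_iff_ne_zero]⟩⟩
  let x0 : Set (K l) × Set (K l) × A := (∅, ∅, a z0)
  have tree : IsTree l (hW x0 (range x)) := by
    refine tw x0 (range_nonempty x) fun α => ?_
    let B : Set (Set (K l)) := insert ∅ (⋃ β : Iic α, 𝒜 β ∪ insert β.1 '' 𝒜 β)
    have hB : #B ≤ l := mk_insert_le.trans ((add_le_add (un hl (kI hl α) _ fun β =>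
      (mk_union_le _ _).trans ((add_le_add (h𝒜 β) (mk_image_le.trans (h𝒜 β))).trans (add_eq_self hl).le))
        (one_le_aleph0.trans hl)).trans (add_eq_self hl).le)
    have mem : ∀ y, x y α ∈ B ×ˢ B ×ˢ {t | hA t = α} := by
      intro y
      by_cases c : (C y ∩ Iic α).Nonempty
      · obtain ⟨β, k1, k2⟩ := (wellFounded_lt (α := K l)).has_min (upperBounds (C y ∩ Iic α)) ⟨α, fun _ u => u.2⟩
        have lub : IsLUB (C y ∩ Iic α) β := ⟨k1, fun u hu => not_lt.1 (k2 u hu)⟩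
        have b1 := (hC y).isLUB_mem inter_subset_left c lub
        have b2 : β ≤ α := lub.2 fun _ u => u.2
        refine ⟨Or.inr (mem_iUnion.2 ⟨⟨β, b2⟩, Or.inr ⟨_, (hC' y β b1).2, ?_⟩⟩),
          Or.inr (mem_iUnion.2 ⟨⟨β, b2⟩, Or.inl ?_⟩), (px y α).2.1⟩
        · ext δ
          refine ⟨?_, fun u => (k1 u).eq_or_lt.imp id fun v => ⟨u.1, v⟩⟩
          rintro (rfl | u)
          exacts [⟨b1, b2⟩, ⟨u.1, (le_of_lt u.2).trans b2⟩]
        · convert (hC' y β b1).1 using 2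
          ext ξ
          exact ⟨fun ⟨δ, u, v⟩ => v.trans_le (k1 u), fun u => ⟨β, ⟨b1, b2⟩, u⟩⟩
      · rw [not_nonempty_iff_eq_empty] at c
        exact ⟨Or.inl c, Or.inl (by simp [x, c]), (px y α).2.1⟩
    have : #↥(B ×ˢ B ×ˢ {t | hA t = α}) ≤ l := by
      rw [mk_setProd, mk_setProd]
      exact (mul_le_mul' hB ((mul_le_mul' hB (h.small α)).trans (mul_eq_self hl).le)).trans (mul_eq_self hl).le
    refine le_trans ?_ this
    have : ∀ q : (fun w => res x0 w α) '' range x, ∃ y, res x0 (x y) α = q := by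
      rintro ⟨_, _, ⟨y, rfl⟩, rfl⟩; exact ⟨y, rfl⟩
    choose Y hY using this
    refine mk_le_of_injective (f := fun q => ⟨x (Y q) α, mem _⟩) fun q q' e => Subtype.ext ?_
    rw [← hY, ← hY]
    funext γ
    simp only [res]
    split_ifs with c
    exacts [det _ _ α γ (congrArg Subtype.val e) c.le, rfl]
  choose z hz using zb hl (x0 := x0) (W := range x)
  have loc : ∀ (b : Br (hW x0 (range x))) α, ∃ y, ∀ γ ≤ α, z b γ = x y γ := by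
    intro b α
    obtain ⟨g, hg, -⟩ := gt hl α α
    obtain ⟨q, h1, rfl⟩ := b.2.2.2 g
    obtain ⟨_, ⟨y, rfl⟩, h2⟩ := q.2
    refine ⟨y, fun γ hγ => ?_⟩
    have : γ < q.1.1 := hγ.trans_lt hg
    rw [← hz b q h1 γ this, h2]; simp [res, this]
  have unb : ∀ (b : Br (hW x0 (range x))) ξ, ∃ γ, ∃ δ ∈ (z b γ).1, ξ < δ := by
    intro b ξ
    by_contra c
    push Not at c
    have m : ∀ γ γ', ξ ≤ γ → γ ≤ γ' → (z b γ).2.2 ≤ (z b γ').2.2 := by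
      intro γ γ' u v
      obtain ⟨y, hy⟩ := loc b γ'
      rw [hy _ v, hy _ le_rfl]
      exact nxe y γ γ' v fun δ i j => (c γ' δ (by rw [hy _ le_rfl]; exact ⟨i, j⟩)).trans u
    have hh : ∀ γ, hA (z b γ).2.2 = γ := fun γ => by
      obtain ⟨y, hy⟩ := loc b γ
      rw [hy _ le_rfl]; exact (px y γ).2.1
    refine hA'.false ⟨{s | ∃ γ, ξ ≤ γ ∧ s ≤ (z b γ).2.2}, ?_, fun s t u ⟨γ, v, w⟩ => ⟨γ, v, u.trans w⟩, fun η => ?_⟩
    · have lin : ∀ s t u : A, s ≤ u → t ≤ u → hA s ≤ hA t → s ≤ t := fun s t u i j k => by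
        obtain ⟨k1, k2, -⟩ := hp t _ k
        have := (hp u (hA s) (hle h i)).2.2
        rw [this s i rfl, ← this _ (k1.trans j) k2]; exact k1
      rintro s ⟨γ, s1, s2⟩ t ⟨γ', t1, t2⟩ -
      have i := s2.trans (m γ _ s1 (le_max_left γ γ'))
      have j := t2.trans (m γ' _ t1 (le_max_right γ γ'))
      exact (le_total (hA s) (hA t)).imp (lin _ _ _ i j) (lin _ _ _ j i)
    · obtain ⟨k1, k2, -⟩ := hp (z b (max ξ η)).2.2 η (by rw [hh]; exact le_max_right _ _)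
      exact ⟨_, ⟨_, le_max_left _ _, k1⟩, k2⟩
  let f : Br (hW x0 (range x)) → K l → Bool := fun b ξ => decide (∃ γ, ξ ∈ (z b γ).2.1)
  have fl : ∀ b γ, ∀ δ ∈ (z b γ).1, ∀ ξ < δ, f b ξ = decide (ξ ∈ (z b γ).2.1) := by
    intro b γ δ hδ ξ hξ
    refine decide_eq_decide.2 ⟨fun ⟨γ', u⟩ => ?_, fun u => ⟨γ, u⟩⟩
    obtain ⟨y, hy⟩ := loc b (max γ γ')
    rw [hy _ (le_max_left _ _)] at hδ ⊢
    rw [hy _ (le_max_right _ _)] at u
    exact ⟨u.1, δ, hδ, hξ⟩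
  have sj : Function.Surjective f := by
    intro g
    let y := {ξ | g ξ = true}
    have hy : x y ∈ range x := ⟨y, rfl⟩
    have nl : ∀ α β, α ≤ β → nd x0 hy α ≤ nd x0 hy β := fun α β u => ⟨u, fun γ (v : γ < α) => by
      simp [nd, res, v, v.trans_le u]⟩
    let b : Br (hW x0 (range x)) := ⟨range (nd x0 hy), by
      rintro _ ⟨α, rfl⟩ _ ⟨β, rfl⟩ -; exact (le_total α β).imp (nl _ _) (nl _ _), by
      rintro _ q u ⟨α, rfl⟩
      have v := nl q.1.1 α u.1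
      exact ⟨q.1.1, le_antisymm (le_iff.2 ⟨le_rfl, fun γ w => (v.2 γ w).trans (u.2 γ w).symm⟩)
        (le_iff.2 ⟨le_rfl, fun γ w => (u.2 γ w).trans (v.2 γ w).symm⟩)⟩, fun γ => ⟨_, ⟨γ, rfl⟩, rfl⟩⟩
    have e : ∀ γ, z b γ = x y γ := fun γ => by
      obtain ⟨u, hu, -⟩ := gt hl γ γ
      rw [← hz b _ ⟨u, rfl⟩ γ hu]; simp [nd, res, hu]
    refine ⟨b, funext fun ξ => ?_⟩
    rw [fl b (nx y ξ) (nx y ξ) (by rw [e]; exact ⟨n2 _ _, self_mem_Iic⟩) ξ (n1 _ _), e]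
    have : ξ ∈ (x y (nx y ξ)).2.1 ↔ g ξ = true := ⟨fun u => u.1, fun u => ⟨u, _, ⟨n2 _ _, self_mem_Iic⟩, n1 _ _⟩⟩
    simp [this]
  refine ⟨_, inferInstance, hW x0 (range x), ⟨tree, le_trans ?_ (mk_le_of_surjective sj)⟩, f, ?_, sj⟩
  · simp only [mk_pi, prod_const, mk_ord_toType, lift_id, mk_fintype, Fintype.card_bool, Nat.cast_ofNat]
    exact Order.succ_le_of_lt (cantor _)
  let _ := topBr (hW x0 (range x))
  refine continuous_generateFrom_iff.2 ?_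
  rintro _ ⟨s, α, rfl⟩
  refine isOpen_iff_forall_mem_open.2 fun b hb => ?_
  obtain ⟨γ, δ, h1, h2⟩ := unb b α
  obtain ⟨g, hg, -⟩ := gt hl γ γ
  obtain ⟨q, q1, rfl⟩ := b.2.2.2 g
  refine ⟨{b' | q ∈ b'.1}, fun b' hb' ξ hξ => ?_, TopologicalSpace.GenerateOpen.basic _ ⟨q, rfl⟩, q1⟩
  have e : z b' γ = z b γ := (hz b' q hb' γ hg).symm.trans (hz b q q1 γ hg)
  rw [← hb ξ hξ, fl b γ δ h1 ξ (hξ.trans h2), fl b' γ δ (e ▸ h1) ξ (hξ.trans h2), e]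

end Pool.Agent.H.MP_0f79e1_lc
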